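import Pool.Agent.W811.Stu.Real

/-!
# Frequency independence of Sturmian spectral dimensions at all couplings

For every coupling constant `lam > 0` the Hausdorff dimension and the upper box-counting dimension
of the spectrum of the Sturmian Hamiltonian are Lebesgue almost everywhere constant in the
frequency.
-/

set_option autoImplicit false

open MeasureTheory

namespace Pool.Agent.Results.MP_0b97f5_mp.AeConstantDimensions

open Pool.Agent.Helper434.PSCplx (L2)

/-- the smallest number of closed intervals of length `2ε` which cover `K` -/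
noncomputable def cov (K : Set ℝ) (ε : ℝ) : ℕ :=
  sInf {N : ℕ | ∃ t : Finset ℝ, t.card = N ∧ K ⊆ ⋃ x ∈ t, Set.Icc (x - ε) (x + ε)}

/-- the upper box-counting dimension -/
noncomputable def upperBox (K : Set ℝ) : EReal :=
  Filter.limsup (fun ε : ℝ => ((Real.log (cov K ε) / Real.log (1 / ε) : ℝ) : EReal))
    (nhdsWithin 0 (Set.Ioi 0))

section general

variable {X : Type} [NormedAddCommGroup X] [NormedSpace ℂ X]

/-- the spectrum of a bounded operator, as a set of real numbers -/
def spec (T : X →L[ℂ] X) : Set ℝ := {E : ℝ | (E : ℂ) ∈ spectrum ℂ T}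

/-- the spectrum has Hausdorff dimension `cH` and upper box-counting dimension `cB` -/
def HasDims (T : X →L[ℂ] X) (cH cB : ℝ) : Prop :=
  dimH (spec T) = ENNReal.ofReal cH ∧ upperBox (spec T) = (cB : EReal)

end general

/-- the value of a vector of `ℓ²(ℤ)` at a site; here `L2` is `lp (fun _ : ℤ => ℂ) 2` -/
noncomputable def amp (u : L2) (n : ℤ) : ℂ := u n

/-- the characteristic function of `[1 - α, 1)` at `n α + ω mod 1` -/
noncomputable def chi (α ω : ℝ) (n : ℤ) : ℝ :=
  if 1 - α ≤ Int.fract ((n : ℝ) * α + ω) then 1 else 0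

/-- `T` is the Sturmian Hamiltonian with coupling `lam`, frequency `α` and phase `ω` -/
def IsSturmian (lam α ω : ℝ) (T : L2 →L[ℂ] L2) : Prop :=
  ∀ (u : L2) (n : ℤ), amp (T u) n =
    amp u (n + 1) + amp u (n - 1) + ((lam * chi α ω n : ℝ) : ℂ) * amp u n

lemma isSturmian_iff {lam α ω : ℝ} {T : L2 →L[ℂ] L2} : IsSturmian lam α ω T ↔
    Pool.Agent.H695R3.ST.IsSchr (Pool.Agent.H695R3.ST.pot lam α ω) T := by
  have key : ∀ n : ℤ, lam * chi α ω n = Pool.Agent.H695R3.ST.pot lam α ω n := by
    intro n
    unfold chi Pool.Agent.H695R3.ST.pot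
    rw [add_comm ((n : ℝ) * α) ω]
    split_ifs <;> simp
  constructor
  · intro h u n
    have := h u n
    rw [key n] at this
    exact this
  · intro h u n
    have := h u n
    rw [← key n] at this
    exact this

/-- For every `lam > 0` there are numbers `cH` and `cB` such that for Lebesgue almost every
frequency `α ∈ (0,1)` and every phase `ω` the Sturmian Hamiltonian is a bounded self-adjoint
operator whose spectrum has Hausdorff dimension `cH` and upper box-counting dimension `cB`. -/
theorem result : ∀ lam : ℝ, 0 < lam → ∃ cH cB : ℝ,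
    ∀ᵐ α ∂(volume.restrict (Set.Ioo (0:ℝ) 1)), ∀ ω : ℝ,
      (∃ T, IsSturmian lam α ω T ∧ IsSelfAdjoint T) ∧
      ∀ T, IsSturmian lam α ω T → HasDims T cH cB := by
  intro lam hlam
  obtain ⟨cH, cB, h⟩ := Pool.Agent.W811.Stu.bothReal lam hlam
  refine ⟨cH, cB, ?_⟩
  filter_upwards [h] with α hα ω
  obtain ⟨⟨T, hs, hT⟩, h2⟩ := hα ω
  exact ⟨⟨T, isSturmian_iff.2 hT, hs⟩, fun T' hT' => h2 T' (isSturmian_iff.1 hT')⟩

end Pool.Agent.Results.MP_0b97f5_mp.AeConstantDimensions
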